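import Pool.Agent.Y157.PS.Stm

set_option autoImplicit false

/-! Prolongations of valuation rings: existence and conjugacy. -/

open Polynomial

namespace Pool.Agent.Y536.PS

theorem val_lt_one_iff {F : Type} [Field F] (O : ValuationSubring F) (x : F) :
    O.valuation x < 1 ↔ x = 0 ∨ x⁻¹ ∉ O := by
  rw [← ValuationSubring.mem_nonunits_iff, ValuationSubring.mem_nonunits_iff_or]

theorem comap_val_lt_one {F M : Type} [Field F] [Field M] (O : ValuationSubring M) (f : F →+* M)
    (x : F) : (O.comap f).valuation x < 1 ↔ O.valuation (f x) < 1 := by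
  rw [val_lt_one_iff, val_lt_one_iff, ValuationSubring.mem_comap, map_inv₀, map_eq_zero]

theorem integral_mem {A M : Type} [CommRing A] [Field M] [Algebra A M] (O : ValuationSubring M)
    (h : ∀ a : A, algebraMap A M a ∈ O) (z : M) (hz : IsIntegral A z) : z ∈ O := by
  obtain ⟨f, hf, hfa⟩ := hz
  have hint2 : IsIntegral O z := by
    let ψ : A →+* O := (algebraMap A M).codRestrict O.toSubring fun r => h r
    refine ⟨f.map ψ, hf.map ψ, ?_⟩
    rw [Polynomial.eval₂_map]
    exact hfa
  obtain ⟨y, hy⟩ := IsIntegrallyClosed.isIntegral_iff.mp hint2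
  rw [← hy]
  exact y.2

/-- the elements of all valuation rings over `A` are integral -/
theorem isIntegral_of_mem {A L : Type} [CommRing A] [Field L] [Algebra A L] (x : L)
    (h : ∀ X : ValuationSubring L, (∀ a : A, algebraMap A L a ∈ X) → x ∈ X) : IsIntegral A x := by
  have h1 : x ∈ (⨅ V : {V : ValuationSubring L // Set.range (algebraMap A L) ⊆ V.toSubring},
      V.1.toSubring) := by
    rw [Subring.mem_iInf]
    rintro ⟨V, hV⟩
    exact h V fun a => hV ⟨a, rfl⟩
  rw [iInf_valuationSubring_superset] at h1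
  have h2 : IsIntegral (Subring.closure (Set.range (algebraMap A L))) x := h1
  let i : A →+* Subring.closure (Set.range (algebraMap A L)) :=
    (algebraMap A L).codRestrict _ fun a => Subring.subset_closure ⟨a, rfl⟩
  have hi : Function.Surjective i := by
    rintro ⟨y, hy⟩
    have h3 : Subring.closure (Set.range (algebraMap A L)) = (algebraMap A L).range := by
      rw [← RingHom.coe_range, Subring.closure_eq]
    rw [h3] at hy
    obtain ⟨a, ha⟩ := hy
    exact ⟨a, Subtype.ext ha⟩
  obtain ⟨f, hf, hfx⟩ := h2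
  obtain ⟨g, hg, hg2, hg3⟩ := Polynomial.lifts_and_natDegree_eq_and_monic
    (Polynomial.mem_lifts f |>.2 (Polynomial.map_surjective i hi f)) hf
  refine ⟨g, hg3, ?_⟩
  rw [← hg, Polynomial.eval₂_map] at hfx
  exact hfx

/-- an element of a valuation ring is a quotient of integral elements, with a unit in the
denominator -/
theorem exists_div {A F L : Type} [CommRing A] [Field F] [Field L] [Algebra A F] [Algebra F L]
    [Algebra A L] [IsScalarTower A F L] [Algebra.IsAlgebraic F L] (O : ValuationSubring F)
    (hAO : ∀ y ∈ O, ∃ a : A, algebraMap A F a = y)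
    (W : ValuationSubring L) (hW : W.comap (algebraMap F L) = O) (z : L) (hz : z ∈ W) :
    ∃ b c : L, IsIntegral A b ∧ IsIntegral A c ∧ W.valuation b = 1 ∧ b * z = c := by
  classical
  by_cases hz0 : z = 0
  · exact ⟨1, 0, isIntegral_one, isIntegral_zero, map_one _, by rw [hz0, mul_zero]⟩
  obtain ⟨p, hp0, hp⟩ := Algebra.IsAlgebraic.isAlgebraic (R := F) z
  obtain ⟨i, hi, himax⟩ := Finset.exists_max_image p.support (fun j => O.valuation (p.coeff j))
    (Polynomial.support_nonempty.2 hp0)
  have hpi : p.coeff i ≠ 0 := Polynomial.mem_support_iff.1 hi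
  have hvi : O.valuation (p.coeff i) ≠ 0 := (Valuation.ne_zero_iff _).2 hpi
  set q : ℕ → F := fun j => p.coeff j / p.coeff i with hq
  have hq1 : ∀ j, O.valuation (q j) ≤ 1 := by
    intro j
    by_cases hj : j ∈ p.support
    · simp only [hq]
      rw [map_div₀]
      exact div_le_one_of_le₀ (himax j hj) zero_le
    · simp only [hq]
      rw [Polynomial.notMem_support_iff.1 hj, zero_div, map_zero]
      exact zero_le
  have hqi : q i = 1 := div_self hpi
  set S := p.support.filter fun j => O.valuation (q j) = 1 with hS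
  have hSi : i ∈ S := Finset.mem_filter.2 ⟨hi, by rw [hqi, map_one]⟩
  set k := S.max' ⟨i, hSi⟩ with hk
  have hkS : k ∈ S := Finset.max'_mem _ _
  have hqk : O.valuation (q k) = 1 := (Finset.mem_filter.1 hkS).2
  have hqj : ∀ j, k < j → O.valuation (q j) < 1 := by
    intro j hj
    by_contra hcon
    have h1 : O.valuation (q j) = 1 := le_antisymm (hq1 j) (not_lt.1 hcon)
    have h2 : j ∈ S := by
      refine Finset.mem_filter.2 ⟨?_, h1⟩
      by_contra h3
      simp only [hq] at h1
      rw [Polynomial.notMem_support_iff.1 h3, zero_div, map_zero] at h1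
      exact zero_ne_one h1
    exact absurd (Finset.le_max' S j h2) (not_le.2 hj)
  have hWlt : ∀ y : F, O.valuation y < 1 → W.valuation (algebraMap F L y) < 1 := by
    intro y hy
    rw [← comap_val_lt_one W (algebraMap F L) y, hW]
    exact hy
  have hWle : ∀ y : F, O.valuation y ≤ 1 → W.valuation (algebraMap F L y) ≤ 1 := by
    intro y hy
    rw [ValuationSubring.valuation_le_one_iff] at hy ⊢
    rw [← hW] at hy
    exact hy
  have hWeq : ∀ y : F, O.valuation y = 1 → W.valuation (algebraMap F L y) = 1 := by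
    intro y hy
    refine le_antisymm (hWle y hy.le) ?_
    by_contra hcon
    rw [not_le, ← comap_val_lt_one W (algebraMap F L) y, hW, hy] at hcon
    exact lt_irrefl _ hcon
  -- the relation
  set n := p.natDegree with hn
  have hrel : ∑ j ∈ Finset.range (n + 1), algebraMap F L (q j) * z ^ j = 0 := by
    have h1 := hp
    rw [Polynomial.aeval_eq_sum_range] at h1
    calc ∑ j ∈ Finset.range (n + 1), algebraMap F L (q j) * z ^ j
        = (algebraMap F L (p.coeff i))⁻¹ * ∑ j ∈ Finset.range (n + 1), p.coeff j • z ^ j := by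
          rw [Finset.mul_sum]
          refine Finset.sum_congr rfl fun j _ => ?_
          simp only [hq]
          rw [map_div₀, Algebra.smul_def]
          ring
      _ = 0 := by rw [h1, mul_zero]
  set b : L := ∑ j ∈ Finset.range (n + 1), if k ≤ j then algebraMap F L (q j) * z ^ (j - k) else 0
    with hb
  have hkn : k ∈ Finset.range (n + 1) := by
    rw [Finset.mem_range]
    exact Nat.lt_succ_of_le (Polynomial.le_natDegree_of_mem_supp k (Finset.mem_filter.1 hkS).1)
  -- `b` is a unit
  have hvb : W.valuation b = 1 := by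
    have h1 : b = algebraMap F L (q k) + ∑ j ∈ (Finset.range (n + 1)).erase k,
        if k ≤ j then algebraMap F L (q j) * z ^ (j - k) else 0 := by
      rw [hb, ← Finset.add_sum_erase _ _ hkn, if_pos le_rfl, Nat.sub_self, pow_zero, mul_one]
    have h2 : W.valuation (∑ j ∈ (Finset.range (n + 1)).erase k,
        if k ≤ j then algebraMap F L (q j) * z ^ (j - k) else 0) < 1 := by
      refine Valuation.map_sum_lt _ one_ne_zero fun j hj => ?_
      split_ifs with hkj
      · have h3 : k < j := lt_of_le_of_ne hkj (Finset.ne_of_mem_erase hj).symm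
        rw [map_mul, map_pow]
        have h4 := hWlt _ (hqj j h3)
        have h5 : W.valuation z ^ (j - k) ≤ 1 :=
          pow_le_one' ((W.valuation_le_one_iff z).2 hz) _
        exact mul_lt_one_of_lt_of_le h4 h5
      · rw [map_zero]
        exact zero_lt_one
    rw [h1, Valuation.map_add_eq_of_lt_left]
    · exact hWeq _ hqk
    · rw [hWeq _ hqk]
      exact h2
  set d : L := ∑ j ∈ Finset.range (n + 1), if j < k then algebraMap F L (q j) * z ^ j else 0
    with hd
  have hbd : b * z ^ k + d = 0 := by
    rw [← hrel, hb, hd, Finset.sum_mul, ← Finset.sum_add_distrib]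
    refine Finset.sum_congr rfl fun j _ => ?_
    rcases le_or_gt k j with h1 | h1
    · rw [if_pos h1, if_neg (not_lt.2 h1), add_zero, mul_assoc, ← pow_add, Nat.sub_add_cancel h1]
    · rw [if_neg (not_le.2 h1), if_pos h1, zero_mul, zero_add]
  have hk0 : k ≠ 0 := by
    intro h0
    have h1 : d = 0 := by
      rw [hd]
      refine Finset.sum_eq_zero fun j _ => ?_
      rw [if_neg (by omega)]
    rw [h1, h0, pow_zero, mul_one, add_zero] at hbd
    rw [hbd, map_zero] at hvb
    exact zero_ne_one hvb
  set c : L := -∑ j ∈ Finset.range (n + 1),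
    if j < k then algebraMap F L (q j) * z⁻¹ ^ (k - 1 - j) else 0 with hc
  have hbz : b * z = c := by
    have h1 : z ^ (k - 1) ≠ 0 := pow_ne_zero _ hz0
    have h2 : c * z ^ (k - 1) = -d := by
      rw [hc, hd, neg_mul, Finset.sum_mul]
      congr 1
      refine Finset.sum_congr rfl fun j _ => ?_
      split_ifs with hjk
      · rw [mul_assoc]
        congr 1
        have h3 : k - 1 = (k - 1 - j) + j := by omega
        conv_lhs => rw [show z ^ (k - 1) = z ^ (k - 1 - j) * z ^ j from by
          rw [← pow_add, ← h3]]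
        rw [← mul_assoc, inv_pow, inv_mul_cancel₀ (pow_ne_zero _ hz0), one_mul]
      · rw [zero_mul]
    have h3 : b * z * z ^ (k - 1) = c * z ^ (k - 1) := by
      rw [h2, mul_assoc, ← pow_succ', Nat.sub_add_cancel (Nat.one_le_iff_ne_zero.2 hk0)]
      exact eq_neg_of_add_eq_zero_left hbd
    exact mul_right_cancel₀ h1 h3
  have hqX : ∀ X : ValuationSubring L, (∀ a : A, algebraMap A L a ∈ X) → ∀ j,
      algebraMap F L (q j) ∈ X := by
    intro X hX j
    obtain ⟨a, ha⟩ := hAO (q j) ((O.valuation_le_one_iff _).1 (hq1 j))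
    rw [← ha, ← IsScalarTower.algebraMap_apply]
    exact hX a
  have hbX : ∀ X : ValuationSubring L, (∀ a : A, algebraMap A L a ∈ X) → b ∈ X ∧ c ∈ X := by
    intro X hX
    have hqX' := hqX X hX
    rcases X.mem_or_inv_mem z with h | h
    · have h1 : b ∈ X := by
        rw [hb]
        refine sum_mem fun j _ => ?_
        split_ifs
        · exact mul_mem (hqX' j) (pow_mem h _)
        · exact zero_mem _
      exact ⟨h1, hbz ▸ mul_mem h1 h⟩
    · have h1 : c ∈ X := by
        rw [hc]
        refine neg_mem (sum_mem fun j _ => ?_)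
        split_ifs
        · exact mul_mem (hqX' j) (pow_mem h _)
        · exact zero_mem _
      have h2 : b = c * z⁻¹ := by rw [← hbz, mul_assoc, mul_inv_cancel₀ hz0, mul_one]
      exact ⟨h2 ▸ mul_mem h1 h, h1⟩
  exact ⟨b, c, isIntegral_of_mem b fun X hX => (hbX X hX).1,
    isIntegral_of_mem c fun X hX => (hbX X hX).2, hvb, hbz⟩

section cent

variable {A F : Type} [CommRing A] [Field F] [Algebra A F]

/-- the center on `A` of a valuation ring containing the image of `A` -/
noncomputable def cent (O : ValuationSubring F) (h : ∀ a : A, algebraMap A F a ∈ O) : Ideal A :=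
  (IsLocalRing.maximalIdeal O).comap ((algebraMap A F).codRestrict O.toSubring h)

theorem mem_cent (O : ValuationSubring F) (h : ∀ a : A, algebraMap A F a ∈ O) (a : A) :
    a ∈ cent O h ↔ O.valuation (algebraMap A F a) < 1 := by
  unfold cent
  rw [Ideal.mem_comap]
  exact O.valuation_lt_one_iff _

instance cent_isPrime (O : ValuationSubring F) (h : ∀ a : A, algebraMap A F a ∈ O) :
    (cent O h).IsPrime := by
  unfold cent
  exact Ideal.comap_isPrime _ _

end cent

open scoped Pointwise in
/-- Conjugacy of valuation rings in a Galois extension. -/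
theorem exists_aut {F L A : Type} [Field F] [Field L] [Algebra F L] [IsGalois F L]
    [CommRing A] [IsDomain A] [IsIntegrallyClosed A] [Algebra A F] [IsFractionRing A F]
    (w w' : ValuationSubring L)
    (hAO : ∀ y : F, y ∈ w.comap (algebraMap F L) ↔ ∃ a : A, algebraMap A F a = y)
    (h : w.comap (algebraMap F L) = w'.comap (algebraMap F L)) :
    ∃ σ : L ≃ₐ[F] L, ∀ a, a ∈ w' ↔ σ a ∈ w := by
  let _ : Algebra A L := ((algebraMap F L).comp (algebraMap A F)).toAlgebra
  have htow : IsScalarTower A F L := .of_algebraMap_eq fun _ => rfl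
  have halgA : Algebra.IsAlgebraic A L :=
    (IsFractionRing.comap_isAlgebraic_iff (A := A) (K := F) (C := L)).mpr inferInstance
  have hA : ∀ a : A, algebraMap F L (algebraMap A F a) ∈ w := fun a => (hAO _).2 ⟨a, rfl⟩
  let _ : MulSemiringAction (L ≃ₐ[F] L) (integralClosure A L) :=
    IsIntegralClosure.MulSemiringAction A F L (integralClosure A L)
  have hsmul : ∀ (σ : L ≃ₐ[F] L) (c : integralClosure A L), ((σ • c : integralClosure A L) : L) =
      σ c := fun σ c => algebraMap_galRestrict_apply A σ c
  let _ : TopologicalSpace (integralClosure A L) := ⊥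
  have hdisc : DiscreteTopology (integralClosure A L) := ⟨rfl⟩
  have hcont : ContinuousSMul (L ≃ₐ[F] L) (integralClosure A L) := by
    refine (continuousSMul_iff_stabilizer_isOpen (M := L ≃ₐ[F] L)
      (X := integralClosure A L)).mpr fun c => ?_
    have h1 := stabilizer_isOpen_of_isIntegral (K := F) (L := L) (c : L)
    have h0 : ((MulAction.stabilizer (L ≃ₐ[F] L) c : Subgroup (L ≃ₐ[F] L)) : Set (L ≃ₐ[F] L)) =
        ((MulAction.stabilizer (L ≃ₐ[F] L) (c : L) : Subgroup (L ≃ₐ[F] L)) :
          Set (L ≃ₐ[F] L)) := by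
      ext σ
      simp only [SetLike.mem_coe, MulAction.mem_stabilizer_iff]
      constructor
      · intro h2
        have h3 := congrArg (fun z : integralClosure A L => (z : L)) h2
        simp only [hsmul] at h3
        exact h3
      · intro h2
        apply Subtype.ext
        rw [hsmul]
        exact h2
    rw [h0]
    exact h1
  have hcomm : SMulCommClass (L ≃ₐ[F] L) A (integralClosure A L) := by
    constructor
    intro σ a c
    apply Subtype.ext
    rw [hsmul]
    change σ (a • (c : L)) = a • ((σ • c : integralClosure A L) : L)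
    rw [hsmul, Algebra.smul_def, Algebra.smul_def, map_mul]
    congr 1
    rw [IsScalarTower.algebraMap_apply A F L, AlgEquiv.commutes]
  have hinv : Algebra.IsInvariant A (integralClosure A L) (L ≃ₐ[F] L) := by
    refine ⟨fun b hb => ?_⟩
    have hb2 : ∀ σ : L ≃ₐ[F] L, σ (b : L) = b := fun σ => by rw [← hsmul, hb σ]
    obtain ⟨y, hy⟩ := (InfiniteGalois.mem_range_algebraMap_iff_fixed (k := F) (K := L) (b : L)).mpr hb2
    have hy2 : IsIntegral A y := by
      have := b.2
      rw [mem_integralClosure_iff, ← hy] at this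
      exact (isIntegral_algebraMap_iff (algebraMap F L).injective).mp this
    obtain ⟨a, ha⟩ := IsIntegrallyClosed.isIntegral_iff.mp hy2
    refine ⟨a, ?_⟩
    apply Subtype.ext
    change algebraMap A L a = (b : L)
    rw [← hy, ← ha, ← IsScalarTower.algebraMap_apply]
  have hAw : ∀ a : A, algebraMap A L a ∈ w := hA
  have hAw' : ∀ a : A, algebraMap A L a ∈ w' := by
    intro a
    have h1 : algebraMap A F a ∈ w.comap (algebraMap F L) := hA a
    rw [h] at h1
    exact h1
  have hC : ∀ c : integralClosure A L, algebraMap (integralClosure A L) L c ∈ w := fun c =>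
    integral_mem w hAw c c.2
  have hC' : ∀ c : integralClosure A L, algebraMap (integralClosure A L) L c ∈ w' := fun c =>
    integral_mem w' hAw' c c.2
  have hunder : (cent w hC).under A = (cent w' hC').under A := by
    ext a
    rw [Ideal.under_def, Ideal.under_def, Ideal.mem_comap, Ideal.mem_comap, mem_cent, mem_cent]
    have h1 : ∀ O : ValuationSubring L, O.valuation (algebraMap (integralClosure A L) L
        (algebraMap A (integralClosure A L) a)) < 1 ↔
        (O.comap (algebraMap F L)).valuation (algebraMap A F a) < 1 := by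
      intro O
      rw [comap_val_lt_one]
      rfl
    rw [h1, h1, h]
  obtain ⟨σ, hσ⟩ := Algebra.IsInvariant.exists_smul_of_under_eq_of_profinite (A := A)
    (B := integralClosure A L) (G := L ≃ₐ[F] L) (cent w hC) (cent w' hC') hunder
  refine ⟨σ⁻¹, ?_⟩
  have hσ2 : ∀ c : integralClosure A L, w'.valuation (c : L) < 1 ↔
      w.valuation (σ⁻¹ (c : L)) < 1 := by
    intro c
    have h1 : c ∈ cent w' hC' ↔ σ⁻¹ • c ∈ cent w hC := by
      rw [hσ]
      exact Ideal.mem_pointwise_smul_iff_inv_smul_mem
    rw [mem_cent, mem_cent] at h1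
    have h2 : algebraMap (integralClosure A L) L (σ⁻¹ • c) = σ⁻¹ (c : L) := hsmul σ⁻¹ c
    rw [h2] at h1
    exact h1
  -- integral elements of `L` and their images
  have hint : ∀ (τ : L ≃ₐ[F] L) (b : L), IsIntegral A b → IsIntegral A (τ b) := by
    intro τ b hb
    exact hb.map ((τ.restrictScalars A : L ≃ₐ[A] L) : L →ₐ[A] L)
  have hle : ∀ b : L, IsIntegral A b → w.valuation b ≤ 1 := fun b hb =>
    (w.valuation_le_one_iff b).2 (integral_mem w hAw b hb)
  have hle' : ∀ b : L, IsIntegral A b → w'.valuation b ≤ 1 := fun b hb =>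
    (w'.valuation_le_one_iff b).2 (integral_mem w' hAw' b hb)
  intro z
  constructor
  · intro hz
    obtain ⟨b, c, hb, hc, hb1, hbc⟩ := exists_div (A := A) (w.comap (algebraMap F L))
      (fun y hy => (hAO y).1 hy) w' h.symm z hz
    have h1 : w.valuation (σ⁻¹ b) = 1 := by
      refine le_antisymm (hle _ (hint _ _ hb)) (not_lt.1 fun h2 => ?_)
      have h3 := (hσ2 ⟨b, hb⟩).2 h2
      have h4 : w'.valuation b < 1 := h3
      rw [hb1] at h4
      exact lt_irrefl _ h4
    have h2 : σ⁻¹ b * σ⁻¹ z = σ⁻¹ c := by rw [← hbc, map_mul]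
    rw [← w.valuation_le_one_iff]
    have h3 := congrArg w.valuation h2
    rw [map_mul, h1, one_mul] at h3
    rw [h3]
    exact hle _ (hint _ _ hc)
  · intro hz
    obtain ⟨b, c, hb, hc, hb1, hbc⟩ := exists_div (A := A) (w.comap (algebraMap F L))
      (fun y hy => (hAO y).1 hy) w rfl (σ⁻¹ z) hz
    have hσσ : ∀ y : L, σ⁻¹ (σ y) = y := fun y => σ.symm_apply_apply y
    have hσσ' : ∀ y : L, σ (σ⁻¹ y) = y := fun y => σ.apply_symm_apply y
    have h1 : w'.valuation (σ b) = 1 := by
      refine le_antisymm (hle' _ (hint _ _ hb)) (not_lt.1 fun h2 => ?_)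
      have h3 := (hσ2 ⟨σ b, hint _ _ hb⟩).1 h2
      have h4 : w.valuation (σ⁻¹ (σ b)) < 1 := h3
      rw [hσσ, hb1] at h4
      exact lt_irrefl _ h4
    have h2 : σ b * z = σ c := by rw [← hbc, map_mul, hσσ']
    rw [← w'.valuation_le_one_iff]
    have h3 := congrArg w'.valuation h2
    rw [map_mul, h1, one_mul] at h3
    rw [h3]
    exact hle' _ (hint _ _ hc)

theorem pow_mem_iff {M : Type} [Field M] (V : ValuationSubring M) (z : M) (n : ℕ) (hn : n ≠ 0) :
    z ^ n ∈ V ↔ z ∈ V := by
  constructor
  · intro h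
    rw [← V.valuation_le_one_iff] at h ⊢
    rw [map_pow] at h
    exact (pow_le_one_iff hn).1 h
  · exact fun h => pow_mem h n

/-- **CONJ** -/
theorem conj : Pool.Agent.Y157.PS.S_CONJ := by
  intro R M _ _ _ _ V V' hVV
  let S := separableClosure R M
  have hG : IsGalois R S := separableClosure.isGalois R M
  let w : ValuationSubring S := V.comap (algebraMap S M)
  let w' : ValuationSubring S := V'.comap (algebraMap S M)
  have hw : w.comap (algebraMap R S) = V.comap (algebraMap R M) := by
    ext y
    rw [ValuationSubring.mem_comap, ValuationSubring.mem_comap, ValuationSubring.mem_comap]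
    rfl
  have hw' : w'.comap (algebraMap R S) = V'.comap (algebraMap R M) := by
    ext y
    rw [ValuationSubring.mem_comap, ValuationSubring.mem_comap, ValuationSubring.mem_comap]
    rfl
  obtain ⟨σ, hσ⟩ := exists_aut (F := R) (L := S) (A := (w.comap (algebraMap R S)))
    w w' (fun y => ⟨fun hy => ⟨⟨y, hy⟩, rfl⟩, fun ⟨a, ha⟩ => ha ▸ a.2⟩) (by rw [hw, hw', hVV])
  refine ⟨σ.liftNormal M, fun z => ?_⟩
  obtain ⟨q, hq⟩ := ExpChar.exists R
  have hqp : q ^ 0 ≠ 0 := by simp
  have hpi : IsPurelyInseparable S M := separableClosure.isPurelyInseparable R M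
  have : ExpChar S q := expChar_of_injective_algebraMap (algebraMap R S).injective q
  obtain ⟨n, y, hy⟩ := IsPurelyInseparable.pow_mem S q z
  have hqn : q ^ n ≠ 0 := pow_ne_zero _ (expChar_pos R q).ne'
  rw [← pow_mem_iff V' z _ hqn, ← pow_mem_iff V _ _ hqn, ← map_pow, ← hy,
    AlgEquiv.liftNormal_commutes]
  exact hσ y

/-- **EXTV** -/
theorem extv : Pool.Agent.Y157.PS.S_EXTV := by
  intro S M _ _ _ V
  obtain ⟨A, h, hA⟩ := IsLocalRing.exists_factor_valuationRing
    (((algebraMap S M).comp V.subtype : V →+* M))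
  refine ⟨A, ?_⟩
  ext z
  rw [ValuationSubring.mem_comap]
  constructor
  · intro hz
    by_contra hcon
    have h1 : z⁻¹ ∈ V := (V.mem_or_inv_mem z).resolve_left hcon
    have hz0 : z ≠ 0 := by
      rintro rfl
      exact hcon (zero_mem _)
    have h2 : IsUnit (((algebraMap S M).comp V.subtype).codRestrict A.toSubring h ⟨z⁻¹, h1⟩) := by
      refine IsUnit.of_mul_eq_one (⟨algebraMap S M z, hz⟩ : A.toSubring) (Subtype.ext ?_)
      change algebraMap S M z⁻¹ * algebraMap S M z = 1
      rw [← map_mul, inv_mul_cancel₀ hz0, map_one]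
    have h3 : IsUnit (⟨z⁻¹, h1⟩ : V) := hA.map_nonunit _ h2
    obtain ⟨u, hu⟩ := h3
    have h4 : z⁻¹ * (u⁻¹ : Vˣ).1.1 = 1 := by
      have h5 : (u.1 : V) * (u⁻¹ : Vˣ).1 = 1 := u.mul_inv
      rw [hu] at h5
      exact congrArg Subtype.val h5
    have h5 : z = (u⁻¹ : Vˣ).1.1 := by
      have h6 := congrArg (fun t => z * t) h4
      simp only [mul_one] at h6
      rw [← mul_assoc, mul_inv_cancel₀ hz0, one_mul] at h6
      exact h6.symm
    exact hcon (h5 ▸ (u⁻¹ : Vˣ).1.2)
  · intro hz
    exact h ⟨z, hz⟩

end Pool.Agent.Y536.PS
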