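import Pool.Agent.Y157.PS.Stm
import Pool.Agent.Y536.PS.CONJ

set_option autoImplicit false

/-! Automorphisms which fix a place and a uniformiser. -/

open Polynomial FF

namespace Pool.Agent.Y536.PS

section

variable {κ K : Type} [Field κ] [Field K] [Algebra κ K]

open scoped IntermediateField.algebraAdjoinAdjoin in
/-- transcendence degree one -/
theorem isAlgebraic_of_transcendental (x : K)
    (hx : Algebra.IsAlgebraic (IntermediateField.adjoin κ {x}) K) (z : K)
    (hz : Transcendental κ z) : Algebra.IsAlgebraic (IntermediateField.adjoin κ {z}) K := by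
  have h1 : Algebra.IsAlgebraic (Algebra.adjoin κ {x}) K :=
    (IsFractionRing.comap_isAlgebraic_iff (A := Algebra.adjoin κ {x})
      (K := IntermediateField.adjoin κ {x}) (C := K)).mpr hx
  have h2 : Algebra.trdeg κ K ≤ 1 := by
    have h3 := Algebra.IsAlgebraic.trdeg_le_cardinalMk κ ({x} : Set K)
    rwa [Cardinal.mk_singleton] at h3
  have h4 : AlgebraicIndependent κ (fun _ : Unit => z) := by
    rw [algebraicIndependent_unique_type_iff]
    exact hz
  have h5 : IsTranscendenceBasis κ (fun _ : Unit => z) := by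
    refine h4.isTranscendenceBasis_of_lift_trdeg_le_of_finite ?_
    simpa using h2
  have h6 := h5.isAlgebraic_field
  have h7 : Set.range (fun _ : Unit => z) = {z} := by simp
  rwa [h7] at h6

/-- **res_const**: residues are constants -/
theorem res_const' [IsAlgClosed κ] (x : K)
    (hx : Algebra.IsAlgebraic (IntermediateField.adjoin κ {x}) K) (W : Place κ K) (z : K)
    (hz : 0 ≤ W.ord z) :
    ∃ c : κ, z = algebraMap κ K c ∨ 0 < W.ord (z - algebraMap κ K c) := by
  by_contra hcon
  push Not at hcon
  have hzc : ∀ c : κ, z - algebraMap κ K c ≠ 0 := fun c h => (hcon c).1 (sub_eq_zero.1 h)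
  have hord : ∀ c : κ, W.ord (z - algebraMap κ K c) = 0 := by
    intro c
    refine le_antisymm (hcon c).2 ?_
    have hR : W.Reg (z - algebraMap κ K c) := by
      rw [sub_eq_add_neg]
      exact W.reg_add (Or.inr hz) (W.reg_neg (W.reg_const c))
    exact (W.reg_iff (hzc c)).1 hR
  -- polynomials in `z`
  have hpol : ∀ P : κ[X], P ≠ 0 → aeval z P ≠ 0 ∧ W.ord (aeval z P) = 0 := by
    intro P hP
    have hsp := IsAlgClosed.splits P
    have hprod := hsp.eq_prod_roots
    have key : ∀ s : Multiset κ, (s.map fun r => z - algebraMap κ K r).prod ≠ 0 ∧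
        W.ord (s.map fun r => z - algebraMap κ K r).prod = 0 := by
      intro s
      induction s using Multiset.induction_on with
      | empty => simp [W.ord_one]
      | cons r s ih =>
        rw [Multiset.map_cons, Multiset.prod_cons]
        exact ⟨mul_ne_zero (hzc r) ih.1, by rw [W.ord_mul (hzc r) ih.1, hord, ih.2, add_zero]⟩
    have h1 : aeval z P = algebraMap κ K P.leadingCoeff *
        (P.roots.map fun r => z - algebraMap κ K r).prod := by
      conv_lhs => rw [hprod]
      rw [map_mul, aeval_C, map_multiset_prod, Multiset.map_map]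
      congr 2
      refine Multiset.map_congr rfl fun r _ => ?_
      simp
    have h2 : algebraMap κ K P.leadingCoeff ≠ 0 := by
      rw [Ne, map_eq_zero]
      exact leadingCoeff_ne_zero.2 hP
    rw [h1]
    refine ⟨mul_ne_zero h2 (key _).1, ?_⟩
    rw [W.ord_mul h2 (key _).1, W.ord_const (leadingCoeff_ne_zero.2 hP), (key _).2, add_zero]
  have htr : Transcendental κ z := by
    rw [transcendental_iff]
    intro P hP
    by_contra h0
    exact (hpol P h0).1 hP
  have halg := isAlgebraic_of_transcendental x hx z htr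
  -- the subfield `κ(z)`
  have hsub : ∀ y : IntermediateField.adjoin κ {z}, (y : K) ∈ W.O := by
    rintro ⟨y, hy⟩
    change W.Reg y
    rw [IntermediateField.mem_adjoin_simple_iff] at hy
    obtain ⟨P, Q, hPQ⟩ := hy
    rw [hPQ]
    by_cases hP : P = 0
    · left
      rw [hP, map_zero, zero_div]
    by_cases hQ : Q = 0
    · left
      rw [hQ, map_zero, div_zero]
    right
    rw [W.ord_div (hpol P hP).1 (hpol Q hQ).1, (hpol P hP).2, (hpol Q hQ).2, sub_zero]
  have hall : ∀ t : K, t ∈ W.O := fun t =>
    integral_mem (A := IntermediateField.adjoin κ {z}) W.O hsub t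
      (Algebra.IsAlgebraic.isAlgebraic (R := IntermediateField.adjoin κ {z}) t).isIntegral
  obtain ⟨t, ht0, ht⟩ := W.surj
  have h1 := (W.reg_iff (inv_ne_zero ht0)).1 (hall t⁻¹)
  rw [W.ord_inv, ht] at h1
  omega

end

theorem res_const : ∀ (κ K : Type) [Field κ] [IsAlgClosed κ] [Field K] [Algebra κ K] (x : K),
    Algebra.IsAlgebraic (IntermediateField.adjoin κ {x}) K → ∀ (W : Place κ K) (z : K),
      0 ≤ W.ord z → ∃ c : κ, z = algebraMap κ K c ∨ 0 < W.ord (z - algebraMap κ K c) :=
  fun _ _ _ _ _ _ x hx W z hz => res_const' x hx W z hz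

/-- **STAB** -/
theorem stab : Pool.Agent.Y157.PS.S_STAB := by
  intro κ K _ _ _ _ x hx W γ hγ π hπ hγπ
  have hπ0 : π ≠ 0 := by
    rintro rfl
    rw [W.ord_zero] at hπ
    omega
  have happ : ∀ (z : K), 0 ≤ W.ord z → ∀ n : ℕ, ∃ P : κ[X],
      z = aeval π P ∨ (n : ℤ) ≤ W.ord (z - aeval π P) := by
    intro z hz n
    induction n with
    | zero => exact ⟨0, Or.inr (by simpa using hz)⟩
    | succ n ih =>
      obtain ⟨P, hP⟩ := ih
      by_cases h0 : z = aeval π P
      · exact ⟨P, Or.inl h0⟩
      have h1 : (n : ℤ) ≤ W.ord (z - aeval π P) := hP.resolve_left h0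
      have h2 : z - aeval π P ≠ 0 := sub_ne_zero.2 h0
      have hπn : π ^ n ≠ 0 := pow_ne_zero _ hπ0
      have h3 : 0 ≤ W.ord ((z - aeval π P) / π ^ n) := by
        rw [W.ord_div h2 hπn, W.ord_pow, hπ]
        omega
      obtain ⟨c, hc⟩ := res_const' x hx W _ h3
      have h4 : z - aeval π (P + C c * X ^ n) =
          ((z - aeval π P) / π ^ n - algebraMap κ K c) * π ^ n := by
        rw [sub_mul, div_mul_cancel₀ _ hπn, map_add, map_mul, aeval_C, map_pow, aeval_X]
        ring
      refine ⟨P + C c * X ^ n, ?_⟩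
      by_cases h5 : (z - aeval π P) / π ^ n - algebraMap κ K c = 0
      · left
        rw [h5, zero_mul] at h4
        exact sub_eq_zero.1 h4
      · right
        have h6 : 0 < W.ord ((z - aeval π P) / π ^ n - algebraMap κ K c) := by
          rcases hc with h | h
          · exact absurd (sub_eq_zero.2 h) h5
          · exact h
        rw [h4, W.ord_mul h5 hπn, W.ord_pow, hπ]
        push_cast
        omega
  have hfix : ∀ z : K, 0 ≤ W.ord z → γ z = z := by
    intro z hz
    by_contra hne
    have hne' : γ z - z ≠ 0 := sub_ne_zero.2 hne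
    obtain ⟨P, hP⟩ := happ z hz ((W.ord (γ z - z)).toNat + 1)
    have hγP : γ (aeval π P) = aeval π P := by
      have h1 : γ (aeval π P) = aeval (γ π) P :=
        (Polynomial.aeval_algHom_apply γ π P).symm
      rw [h1, hγπ]
    by_cases h0 : z = aeval π P
    · apply hne
      rw [h0, hγP]
    have h1 := hP.resolve_left h0
    have h2 : z - aeval π P ≠ 0 := sub_ne_zero.2 h0
    have h3 : γ (z - aeval π P) ≠ 0 := by
      rw [Ne, map_eq_zero]
      exact h2
    have h4 : γ z - z = γ (z - aeval π P) - (z - aeval π P) := by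
      rw [map_sub, hγP]
      ring
    have h5 := W.ord_sub h3 h2 (by rw [← h4]; exact hne')
    rw [← h4, hγ, min_self] at h5
    have h6 : (((W.ord (γ z - z)).toNat + 1 : ℕ) : ℤ) ≤ W.ord (γ z - z) := h1.trans h5
    have h7 := Int.self_le_toNat (W.ord (γ z - z))
    push_cast at h6
    omega
  ext z
  rw [AlgEquiv.one_apply]
  rcases le_or_gt 0 (W.ord z) with h | h
  · exact hfix z h
  · have h1 := hfix z⁻¹ (by rw [W.ord_inv]; omega)
    rw [map_inv₀] at h1
    exact inv_injective h1

end Pool.Agent.Y536.PS
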